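import Pool.Agent.Results.MP_b61c36_nt.PPCCounterexample

/-! Blocks in arithmetic progression inside a sequence with Poissonian pair correlations
(problem MP_1f5025_nt, Q2). -/

set_option autoImplicit false

namespace Pool.Agent.H673R3

open Filter Topology Finset
open Pool.Agent.Results.MP_b61c36_nt.PPCCounterexample

/-! ### choice of the exponents -/

lemma exists_exponent (ψ : ℕ → ℝ) (hψ : Tendsto ψ atTop atTop) :
    ∃ j : ℕ → ℕ, (∀ k, j k ≤ k) ∧ Tendsto j atTop atTop ∧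
      ∀ᶠ k in atTop, ∀ N : ℕ, 2 ^ (k + 1) ≤ N → (2 : ℝ) ^ (9 + 3 * j k) ≤ ψ N := by
  classical
  let P : ℕ → ℕ → Prop := fun k i => ∀ N : ℕ, 2 ^ (k + 1) ≤ N → (2 : ℝ) ^ (9 + 3 * i) ≤ ψ N
  have hP : ∀ i, ∀ᶠ k in atTop, P k i := by
    intro i
    obtain ⟨N0, hN0⟩ := eventually_atTop.1 (hψ.eventually_ge_atTop ((2 : ℝ) ^ (9 + 3 * i)))
    filter_upwards [eventually_ge_atTop N0] with k hk N hN
    apply hN0
    have : k + 1 < 2 ^ (k + 1) := Nat.lt_two_pow_self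
    omega
  refine ⟨fun k => Nat.findGreatest (P k) k, fun k => Nat.findGreatest_le k, ?_, ?_⟩
  · rw [tendsto_atTop]
    intro b
    filter_upwards [hP b, eventually_ge_atTop b] with k h1 h2
    exact Nat.le_findGreatest h2 h1
  · filter_upwards [hP 0] with k h1
    exact Nat.findGreatest_spec (P := P k) (Nat.zero_le k) h1

/-! ### the blocks -/

/-- length of the block of index `k` -/
def mm (j : ℕ → ℕ) (k : ℕ) : ℕ := 2 ^ (k - j k)

lemma mm_pos (j : ℕ → ℕ) (k : ℕ) : 0 < mm j k := by unfold mm; positivity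

lemma mm_le (j : ℕ → ℕ) (k : ℕ) : mm j k ≤ 2 ^ k :=
  Nat.pow_le_pow_right (by norm_num) (Nat.sub_le _ _)

/-- the indices in blocks -/
def inB (j : ℕ → ℕ) (n : ℕ) : Prop := 1 ≤ n ∧ n < 2 ^ Nat.log 2 n + mm j (Nat.log 2 n)

instance (j : ℕ → ℕ) : DecidablePred (inB j) := fun n => by unfold inB; infer_instance

/-- the block of index `k` -/
def blk (j : ℕ → ℕ) (k : ℕ) : Finset ℕ := Finset.Ico (2 ^ k) (2 ^ k + mm j k)

lemma log_blk (j : ℕ → ℕ) (k i : ℕ) (hi : i < mm j k) : Nat.log 2 (2 ^ k + i) = k := by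
  have h1 := mm_le j k
  rw [Nat.log_eq_iff (Or.inr ⟨by norm_num, by positivity⟩)]
  constructor
  · omega
  · rw [pow_succ]; omega

lemma inB_blk (j : ℕ → ℕ) (k i : ℕ) (hi : i < mm j k) : inB j (2 ^ k + i) := by
  unfold inB
  rw [log_blk j k i hi]
  have : 0 < 2 ^ k := by positivity
  omega

lemma inB_mem_blk (j : ℕ → ℕ) (n : ℕ) (hn : inB j n) : n ∈ blk j (Nat.log 2 n) := by
  unfold inB at hn
  unfold blk
  rw [Finset.mem_Ico]
  exact ⟨Nat.pow_log_le_self 2 (by omega), hn.2⟩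

/-! ### the sequence -/

/-- the sequence: arithmetic progressions along the blocks, `nx` elsewhere -/
noncomputable def sq (j D : ℕ → ℕ) (nx : ℕ → ℝ → ℝ → ℕ) (y : ℕ → ℝ) : ℕ → ℕ
  | 0 => 1
  | n + 1 => if inB j (n + 1) then sq j D nx y n + D (Nat.log 2 (n + 1))
      else nx (sq j D nx y n) (y (Nat.count (fun m => ¬ inB j m) (n + 1))) ((1 / 2) ^ (n + 1))

lemma sq_succ_in (j D : ℕ → ℕ) (nx : ℕ → ℝ → ℝ → ℕ) (y : ℕ → ℝ) (n : ℕ) (h : inB j (n + 1)) :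
    sq j D nx y (n + 1) = sq j D nx y n + D (Nat.log 2 (n + 1)) := by
  rw [sq, if_pos h]

lemma sq_succ_out (j D : ℕ → ℕ) (nx : ℕ → ℝ → ℝ → ℕ) (y : ℕ → ℝ) (n : ℕ) (h : ¬ inB j (n + 1)) :
    sq j D nx y (n + 1) =
      nx (sq j D nx y n) (y (Nat.count (fun m => ¬ inB j m) (n + 1))) ((1 / 2) ^ (n + 1)) := by
  rw [sq, if_neg h]

lemma sq_strictMono (j D : ℕ → ℕ) (nx : ℕ → ℝ → ℝ → ℕ) (y : ℕ → ℝ) (hD : ∀ k, 0 < D k)
    (hnx : ∀ A y ε, 0 < ε → A < nx A y ε) : StrictMono (sq j D nx y) := by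
  apply strictMono_nat_of_lt_succ
  intro n
  by_cases h : inB j (n + 1)
  · rw [sq_succ_in j D nx y n h]
    have := hD (Nat.log 2 (n + 1))
    omega
  · rw [sq_succ_out j D nx y n h]
    exact hnx _ _ _ (by positivity)

lemma sq_pos (j D : ℕ → ℕ) (nx : ℕ → ℝ → ℝ → ℕ) (y : ℕ → ℝ) (hD : ∀ k, 0 < D k)
    (hnx : ∀ A y ε, 0 < ε → A < nx A y ε) (n : ℕ) : 0 < sq j D nx y n := by
  have h1 := (sq_strictMono j D nx y hD hnx).monotone (Nat.zero_le n)
  have h2 : sq j D nx y 0 = 1 := by rw [sq]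
  omega

lemma sq_blk (j D : ℕ → ℕ) (nx : ℕ → ℝ → ℝ → ℕ) (y : ℕ → ℝ) (k : ℕ) :
    ∀ i, i < mm j k → sq j D nx y (2 ^ k + i) = sq j D nx y (2 ^ k) + i * D k
  | 0 => by intro _; simp
  | i + 1 => by
    intro hi
    have h1 := sq_blk j D nx y k i (by omega)
    have h2 : 2 ^ k + (i + 1) = (2 ^ k + i) + 1 := by ring
    have h3 : inB j ((2 ^ k + i) + 1) := by
      rw [← h2]; exact inB_blk j k (i + 1) hi
    rw [h2, sq_succ_in j D nx y _ h3, h1, ← h2, log_blk j k (i + 1) hi]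
    ring

/-! ### separation inside a block -/

lemma separated (m : ℕ) (hm : 0 < m) (β : ℝ) (hβ : nd (β - 1 / (m : ℝ)) ≤ 1 / (2 * (m : ℝ) ^ 2))
    (i i' : ℕ) (hi : i < m) (hi' : i' < m) (hne : i ≠ i') :
    1 / (2 * (m : ℝ)) ≤ nd ((i : ℝ) * β - (i' : ℝ) * β) := by
  wlog h : i' < i generalizing i i'
  · rw [nd_sub_comm]
    exact this i' i hi' hi hne.symm (by omega)
  have hn0 : (0 : ℝ) < m := by exact_mod_cast hm
  obtain ⟨d, hd⟩ := Nat.exists_eq_add_of_lt h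
  have hd1 : ((i : ℝ) * β - (i' : ℝ) * β) = ((d + 1 : ℕ) : ℝ) * β := by
    rw [hd]; push_cast; ring
  rw [hd1]
  have h1 : 1 / ((m : ℤ) : ℝ) ≤ nd ((((d + 1 : ℕ) : ℤ) : ℝ) / ((m : ℤ) : ℝ)) := by
    apply nd_div_lower _ _ (by exact_mod_cast hm)
    intro hdvd
    have := Int.le_of_dvd (by positivity) hdvd
    omega
  push_cast at h1
  have h2 := nd_add_le (((d + 1 : ℕ) : ℝ) * β) (-(((d + 1 : ℕ) : ℝ) * (β - 1 / (m : ℝ))))
  have h3 : ((d + 1 : ℕ) : ℝ) * β + -(((d + 1 : ℕ) : ℝ) * (β - 1 / (m : ℝ))) =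
      ((d : ℝ) + 1) / m := by push_cast; ring
  rw [h3, nd_neg] at h2
  have h4 := nd_nat_mul (d + 1) (β - 1 / (m : ℝ))
  have h5 : ((d + 1 : ℕ) : ℝ) * nd (β - 1 / (m : ℝ)) ≤ (m : ℝ) * (1 / (2 * (m : ℝ) ^ 2)) := by
    apply mul_le_mul _ hβ (nd_nonneg _) hn0.le
    exact_mod_cast (by omega : d + 1 ≤ m)
  have h6 : (m : ℝ) * (1 / (2 * (m : ℝ) ^ 2)) = 1 / (2 * (m : ℝ)) := by
    field_simp
  have h7 : 1 / (m : ℝ) = 1 / (2 * (m : ℝ)) + 1 / (2 * (m : ℝ)) := by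
    field_simp; norm_num
  linarith

lemma sep_blk (j D : ℕ → ℕ) (nx : ℕ → ℝ → ℝ → ℕ) (y : ℕ → ℝ) (α : ℝ) (k : ℕ)
    (hD : nd ((D k : ℝ) * α - 1 / (mm j k : ℝ)) ≤ 1 / (2 * (mm j k : ℝ) ^ 2))
    (n n' : ℕ) (hn : n ∈ blk j k) (hn' : n' ∈ blk j k) (hne : n ≠ n') :
    1 / (2 * (mm j k : ℝ)) ≤ nd ((sq j D nx y n : ℝ) * α - (sq j D nx y n' : ℝ) * α) := by
  unfold blk at hn hn'
  rw [Finset.mem_Ico] at hn hn'
  obtain ⟨i, rfl⟩ := Nat.exists_eq_add_of_le hn.1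
  obtain ⟨i', rfl⟩ := Nat.exists_eq_add_of_le hn'.1
  have hi : i < mm j k := by omega
  have hi' : i' < mm j k := by omega
  rw [sq_blk j D nx y k i hi, sq_blk j D nx y k i' hi']
  have h1 := separated (mm j k) (mm_pos j k) ((D k : ℝ) * α) hD i i' hi hi' (by omega)
  have h2 : ((sq j D nx y (2 ^ k) + i * D k : ℕ) : ℝ) * α -
      ((sq j D nx y (2 ^ k) + i' * D k : ℕ) : ℝ) * α =
      (i : ℝ) * ((D k : ℝ) * α) - (i' : ℝ) * ((D k : ℝ) * α) := by
    push_cast; ring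
  rw [h2]
  exact h1

/-! ### a summation lemma -/

lemma conv_geom (r : ℝ) (h0 : 0 ≤ r) (h1 : r < 1) (t T : ℕ → ℝ) (ht : Tendsto t atTop (𝓝 0))
    (hT0 : ∀ n, 0 ≤ T n) (hT : ∀ n, T (n + 1) ≤ r * T n + t (n + 1)) :
    Tendsto T atTop (𝓝 0) := by
  rw [Metric.tendsto_atTop]
  intro ε hε
  have h1r : 0 < 1 - r := by linarith
  obtain ⟨n0, hn0⟩ := eventually_atTop.1
    (ht.eventually (gt_mem_nhds (show (0 : ℝ) < ε / 2 * (1 - r) by positivity)))
  have key : ∀ d, T (n0 + d) ≤ r ^ d * T n0 + ε / 2 := by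
    intro d
    induction d with
    | zero => simp; positivity
    | succ d ih =>
      have e1 := hT (n0 + d)
      have e2 := hn0 (n0 + d + 1) (by omega)
      have e3 : r * T (n0 + d) ≤ r * (r ^ d * T n0 + ε / 2) := mul_le_mul_of_nonneg_left ih h0
      have e4 : n0 + (d + 1) = n0 + d + 1 := by ring
      rw [e4]
      calc T (n0 + d + 1) ≤ r * (r ^ d * T n0 + ε / 2) + ε / 2 * (1 - r) := by linarith
        _ = r ^ (d + 1) * T n0 + ε / 2 := by ring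
  have hlim : Tendsto (fun d : ℕ => r ^ d * T n0) atTop (𝓝 (0 * T n0)) :=
    (tendsto_pow_atTop_nhds_zero_of_lt_one h0 h1).mul_const _
  rw [zero_mul] at hlim
  obtain ⟨d0, hd0⟩ := eventually_atTop.1 (hlim.eventually (gt_mem_nhds (half_pos hε)))
  refine ⟨n0 + d0, fun n hn => ?_⟩
  obtain ⟨d, rfl⟩ := Nat.exists_eq_add_of_le (show n0 ≤ n by omega)
  rw [Real.dist_eq, sub_zero, abs_of_nonneg (hT0 _)]
  have e1 := key d
  have e2 := hd0 d (by omega)
  linarith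

/-- sum of the square roots of the block lengths -/
noncomputable def SR (j : ℕ → ℕ) (K : ℕ) : ℝ := ∑ k ∈ range (K + 1), Real.sqrt (mm j k)

lemma SR_nonneg (j : ℕ → ℕ) (K : ℕ) : 0 ≤ SR j K := Finset.sum_nonneg fun _ _ => Real.sqrt_nonneg _

lemma SR_lim (j : ℕ → ℕ) (hj : ∀ k, j k ≤ k) (hj' : Tendsto j atTop atTop) :
    Tendsto (fun K => SR j K ^ 2 / 2 ^ K) atTop (𝓝 0) := by
  have h2 : (1 : ℝ) < Real.sqrt 2 := by
    rw [Real.lt_sqrt (by norm_num)]; norm_num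
  have h20 : (0 : ℝ) < Real.sqrt 2 := by linarith
  have hT : Tendsto (fun K => SR j K / Real.sqrt (2 ^ K)) atTop (𝓝 0) := by
    apply conv_geom (1 / Real.sqrt 2) (by positivity) (by rw [div_lt_one h20]; exact h2)
      (fun K => Real.sqrt ((1 / 2) ^ j K))
    · have e1 : Tendsto (fun K => ((1 / 2 : ℝ)) ^ j K) atTop (𝓝 0) :=
        (tendsto_pow_atTop_nhds_zero_of_lt_one (by norm_num) (by norm_num)).comp hj'
      have e2 := (Real.continuous_sqrt.tendsto 0).comp e1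
      rw [Real.sqrt_zero] at e2
      exact e2
    · intro n
      exact div_nonneg (SR_nonneg j n) (Real.sqrt_nonneg _)
    · intro n
      apply le_of_eq
      have e1 : SR j (n + 1) = SR j n + Real.sqrt (mm j (n + 1)) := by
        unfold SR; rw [Finset.sum_range_succ]
      have e2 : Real.sqrt ((2 : ℝ) ^ (n + 1)) = Real.sqrt (2 ^ n) * Real.sqrt 2 := by
        rw [pow_succ, Real.sqrt_mul (by positivity)]
      have e3 : Real.sqrt ((1 / 2 : ℝ) ^ j (n + 1)) =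
          Real.sqrt (mm j (n + 1)) / Real.sqrt (2 ^ (n + 1)) := by
        rw [← Real.sqrt_div (by positivity)]
        congr 1
        unfold mm
        push_cast
        rw [eq_div_iff (by positivity), one_div_pow, one_div, inv_mul_eq_iff_eq_mul₀ (by positivity),
          ← pow_add]
        congr 1
        have := hj (n + 1)
        omega
      have e4 : (0 : ℝ) < Real.sqrt (2 ^ n) := Real.sqrt_pos.2 (by positivity)
      rw [e1, e3, e2]
      field_simp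
  have h3 := hT.pow 2
  rw [zero_pow (by norm_num)] at h3
  refine h3.congr (fun K => ?_)
  rw [div_pow, Real.sq_sqrt (by positivity)]

lemma mm_le_SR (j : ℕ → ℕ) (K k : ℕ) (hk : k ≤ K) : (mm j k : ℝ) ≤ SR j K ^ 2 := by
  have h1 : Real.sqrt (mm j k) ≤ SR j K := by
    unfold SR
    exact Finset.single_le_sum (f := fun k => Real.sqrt (mm j k))
      (fun _ _ => Real.sqrt_nonneg _) (Finset.mem_range.2 (by omega))
  have h2 := pow_le_pow_left₀ (Real.sqrt_nonneg _) h1 2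
  rwa [Real.sq_sqrt (Nat.cast_nonneg _)] at h2

lemma sum_mm_le (j : ℕ → ℕ) (K : ℕ) : (∑ k ∈ range (K + 1), (mm j k : ℝ)) ≤ SR j K ^ 2 := by
  have h1 : (∑ k ∈ range (K + 1), (mm j k : ℝ)) = ∑ k ∈ range (K + 1), Real.sqrt (mm j k) ^ 2 := by
    refine Finset.sum_congr rfl fun k _ => ?_
    rw [Real.sq_sqrt (Nat.cast_nonneg _)]
  rw [h1]
  exact Finset.sum_sq_le_sq_sum_of_nonneg fun _ _ => Real.sqrt_nonneg _

lemma SR_limN (j : ℕ → ℕ) (hj : ∀ k, j k ≤ k) (hj' : Tendsto j atTop atTop) :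
    Tendsto (fun N : ℕ => SR j (Nat.log 2 N) ^ 2 / N) atTop (𝓝 0) := by
  refine squeeze_zero' (Eventually.of_forall fun N => by positivity) ?_
    ((SR_lim j hj hj').comp log_tendsto)
  filter_upwards [eventually_ge_atTop 1] with N hN
  show SR j (Nat.log 2 N) ^ 2 / N ≤ SR j (Nat.log 2 N) ^ 2 / 2 ^ (Nat.log 2 N)
  apply div_le_div_of_nonneg_left (by positivity) (by positivity)
  exact_mod_cast Nat.pow_log_le_self 2 (by omega)

end Pool.Agent.H673R3
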