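import Pool.Agent.H673R3.EnergyBlocks

/-! Sequences with large additive energy and Poissonian pair correlations at a given irrational
number (problem MP_1f5025_nt, Q2). -/

set_option autoImplicit false

namespace Pool.Agent.H673R3

open Filter Topology Finset
open Pool.Agent.Results.MP_b61c36_nt.PPCCounterexample

/-! ### Density of the multiples of an irrational number -/

lemma exists_mul_near (α : ℝ) (hα : Irrational α) (A : ℕ) (y ε : ℝ) (hε : 0 < ε) :
    ∃ n : ℕ, A < n ∧ nd ((n : ℝ) * α - y) ≤ ε := by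
  have h1 : DenseRange (· • (α : UnitAddCircle) : ℕ → UnitAddCircle) := by
    rw [← denseRange_zsmul_iff_nsmul]
    have : Irrational (α / 1) := by rwa [div_one]
    exact AddCircle.denseRange_zsmul_coe_iff.2 this
  obtain ⟨n, hn⟩ := h1.exists_dist_lt ((y - (A + 1) * α : ℝ) : UnitAddCircle) hε
  refine ⟨n + (A + 1), by omega, ?_⟩
  have h2 : nd (((n + (A + 1) : ℕ) : ℝ) * α - y) =
      dist ((y - (A + 1) * α : ℝ) : UnitAddCircle) (n • (α : UnitAddCircle)) := by
    rw [dist_comm, dist_eq_norm, ← AddCircle.coe_nsmul, ← AddCircle.coe_sub,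
      UnitAddCircle.norm_eq]
    unfold nd
    have e1 : ((n + (A + 1) : ℕ) : ℝ) * α - y = n • α - (y - (A + 1) * α) := by
      rw [nsmul_eq_mul]; push_cast; ring
    rw [e1]
  rw [h2]
  exact hn.le

/-! ### Pairs in the blocks -/

lemma Q_biUnion_le (x : ℕ → ℝ) (R : Finset ℕ) (B : ℕ → Finset ℕ) (δ : ℝ) :
    Q x (R.biUnion B) (R.biUnion B) δ ≤ ∑ k ∈ R, ∑ k' ∈ R, Q x (B k) (B k') δ := by
  classical
  have h1 : ((R.biUnion B ×ˢ R.biUnion B).filter fun p => nd (x p.1 - x p.2) < δ) ⊆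
      (R ×ˢ R).biUnion (fun q => (B q.1 ×ˢ B q.2).filter fun p => nd (x p.1 - x p.2) < δ) := by
    intro p hp
    simp only [Finset.mem_filter, Finset.mem_product, Finset.mem_biUnion] at hp ⊢
    obtain ⟨⟨⟨k, hk, hk'⟩, ⟨l, hl, hl'⟩⟩, h⟩ := hp
    exact ⟨(k, l), ⟨hk, hl⟩, ⟨hk', hl'⟩, h⟩
  unfold Q
  refine (Finset.card_le_card h1).trans ?_
  refine Finset.card_biUnion_le.trans ?_
  rw [Finset.sum_product]

lemma Q_mono (x : ℕ → ℝ) {A B : Finset ℕ} (h : A ⊆ B) (δ : ℝ) : Q x A A δ ≤ Q x B B δ := by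
  unfold Q
  exact Finset.card_le_card (Finset.filter_subset_filter _ (Finset.product_subset_product h h))

lemma blk_card (j : ℕ → ℕ) (k : ℕ) : (blk j k).card = mm j k := by
  unfold blk; simp

/-- block indices below `N` -/
def BB (j : ℕ → ℕ) (N : ℕ) : Finset ℕ := (range N).filter (inB j)

lemma BB_sub (j : ℕ → ℕ) (N : ℕ) : BB j N ⊆ (range (Nat.log 2 N + 1)).biUnion (blk j) := by
  intro n hn
  unfold BB at hn
  rw [Finset.mem_filter, mem_range] at hn
  rw [Finset.mem_biUnion]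
  refine ⟨Nat.log 2 n, ?_, inB_mem_blk j n hn.2⟩
  rw [mem_range]
  have := Nat.log_mono_right (b := 2) hn.1.le
  omega

lemma BB_card (j : ℕ → ℕ) (N : ℕ) : ((BB j N).card : ℝ) ≤ SR j (Nat.log 2 N) ^ 2 := by
  refine le_trans ?_ (sum_mm_le j (Nat.log 2 N))
  have h1 := (Finset.card_le_card (BB_sub j N)).trans Finset.card_biUnion_le
  have h2 : ∑ k ∈ range (Nat.log 2 N + 1), (blk j k).card =
      ∑ k ∈ range (Nat.log 2 N + 1), mm j k := Finset.sum_congr rfl fun k _ => blk_card j k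
  rw [h2] at h1
  exact_mod_cast h1

/-- pairs inside the union of the blocks -/
lemma Q_BB (j : ℕ → ℕ) (x : ℕ → ℝ) (N : ℕ) (δ : ℝ) (hδ0 : 0 < δ) (hδ1 : δ ≤ 1)
    (hsep : ∀ k, k ≤ Nat.log 2 N → ∀ n ∈ blk j k, ∀ n' ∈ blk j k, n ≠ n' →
      δ ≤ nd (x n - x n')) :
    (Q x (BB j N) (BB j N) δ : ℝ) ≤ 5 * SR j (Nat.log 2 N) ^ 2 := by
  set K := Nat.log 2 N with hK
  have hself : ∀ k ∈ range (K + 1), Q x (blk j k) (blk j k) δ = mm j k := by
    intro k hk
    rw [mem_range] at hk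
    rw [Q_self _ _ _ hδ0, blk_card]
    have : offA x (blk j k) δ = 0 := by
      unfold offA
      rw [Finset.card_eq_zero, Finset.filter_eq_empty_iff]
      intro p hp
      rw [Finset.mem_offDiag] at hp
      rw [not_lt]
      exact hsep k (by omega) p.1 hp.1 p.2 hp.2.1 hp.2.2
    omega
  have h1 : (Q x (BB j N) (BB j N) δ : ℝ) ≤
      ∑ k ∈ range (K + 1), ∑ k' ∈ range (K + 1), (Q x (blk j k) (blk j k') δ : ℝ) := by
    exact_mod_cast (Q_mono x (BB_sub j N) δ).trans (Q_biUnion_le x _ _ δ)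
  have h2 : ∀ k ∈ range (K + 1), ∀ k' ∈ range (K + 1), (Q x (blk j k) (blk j k') δ : ℝ) ≤
      5 * (Real.sqrt (mm j k) * Real.sqrt (mm j k')) := by
    intro k hk k' hk'
    have := Q_cs_real x (blk j k) (blk j k') δ hδ0 hδ1
    rw [hself k hk, hself k' hk', Real.sqrt_mul (Nat.cast_nonneg _)] at this
    exact this
  refine h1.trans ((Finset.sum_le_sum fun k hk => Finset.sum_le_sum fun k' hk' =>
    h2 k hk k' hk').trans (le_of_eq ?_))
  unfold SR
  rw [pow_two, Finset.sum_mul_sum, Finset.mul_sum]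
  refine Finset.sum_congr rfl fun k _ => ?_
  rw [Finset.mul_sum]

lemma count_notB (j : ℕ → ℕ) (N : ℕ) :
    Nat.count (fun n => ¬ inB j n) N + (BB j N).card = N := by
  unfold BB
  rw [Nat.count_eq_card_filter_range, add_comm, Finset.card_filter_add_card_filter_not, card_range]

lemma M_limB (j : ℕ → ℕ) (hj : ∀ k, j k ≤ k) (hj' : Tendsto j atTop atTop) :
    Tendsto (fun N : ℕ => (Nat.count (fun n => ¬ inB j n) N : ℝ) / N) atTop (𝓝 1) := by
  have h1 : Tendsto (fun N : ℕ => 1 - SR j (Nat.log 2 N) ^ 2 / N) atTop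
      (𝓝 (1 - 0)) := tendsto_const_nhds.sub (SR_limN j hj hj')
  rw [sub_zero] at h1
  refine tendsto_of_tendsto_of_tendsto_of_le_of_le' h1 tendsto_const_nhds ?_ ?_
  · filter_upwards [eventually_ge_atTop 1] with N hN
    have hNR : (0 : ℝ) < N := by exact_mod_cast hN
    have h2 := BB_card j N
    have h4 := count_notB j N
    have h4R : (Nat.count (fun n => ¬ inB j n) N : ℝ) + (BB j N).card = N := by exact_mod_cast h4
    rw [le_div_iff₀ hNR, sub_mul, div_mul_cancel₀ _ hNR.ne']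
    linarith
  · filter_upwards [eventually_ge_atTop 1] with N hN
    have hNR : (0 : ℝ) < N := by exact_mod_cast hN
    rw [div_le_one hNR]
    have h4 := count_notB j N
    have : Nat.count (fun n => ¬ inB j n) N ≤ N := by omega
    exact_mod_cast this

/-! ### Poissonian pair correlations -/

theorem ppc_sq (α : ℝ) (j D : ℕ → ℕ) (nx : ℕ → ℝ → ℝ → ℕ) (y : ℕ → ℝ) (hy : PPC y)
    (hj : ∀ k, j k ≤ k) (hj' : Tendsto j atTop atTop)
    (hD : ∀ k, nd ((D k : ℝ) * α - 1 / (mm j k : ℝ)) ≤ 1 / (2 * (mm j k : ℝ) ^ 2))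
    (hnx : ∀ A y ε, 0 < ε → nd ((nx A y ε : ℝ) * α - y) ≤ ε) :
    PPC (fun n => (sq j D nx y n : ℝ) * α) := by
  classical
  set z : ℕ → ℝ := fun n => (sq j D nx y n : ℝ) * α with hz
  refine ppc_compare z y hy (fun n => Nat.count (fun m => ¬ inB j m) n)
    (fun N => (range N).filter (fun n => ¬ inB j n ∧ LL N ≤ n))
    (fun N => (range N).filter (fun n => inB j n ∨ n < LL N)) (fun N => range (LL N))
    (fun N => Nat.count (fun n => ¬ inB j n) N) (fun N => 1 / (N : ℝ) ^ 2) ?_ ?_ ?_ ?_ ?_ ?_ ?_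
    (M_limB j hj hj') ?_ ?_
  · -- C ∪ D
    intro N
    ext n
    simp only [Finset.mem_union, Finset.mem_filter]
    constructor
    · rintro (h | h)
      · exact h.1
      · exact h.1
    · intro h
      by_cases h1 : inB j n
      · right; exact ⟨h, Or.inl h1⟩
      · rcases lt_or_ge n (LL N) with h2 | h2
        · right; exact ⟨h, Or.inr h2⟩
        · left; exact ⟨h, h1, h2⟩
  · intro N n hn m hm h
    rw [Finset.mem_coe, Finset.mem_filter] at hn hm
    exact Nat.count_injective hn.2.1 hm.2.1 h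
  · intro N
    have := count_notB j N
    show Nat.count (fun n => ¬ inB j n) N ≤ N
    omega
  · intro N m hm
    rw [Finset.mem_image] at hm
    obtain ⟨n, hn, rfl⟩ := hm
    rw [Finset.mem_filter, mem_range] at hn
    rw [mem_range]
    exact Nat.count_strict_mono hn.2.1 hn.1
  · intro N m hm
    rw [mem_range] at hm
    obtain ⟨n, h1, h2, h3⟩ := count_surj _ N m hm
    rw [Finset.mem_union]
    rcases lt_or_ge n (LL N) with h4 | h4
    · right
      rw [mem_range, ← h3]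
      have : Nat.count (fun n => ¬ inB j n) n ≤ n := by
        have := count_notB j n
        omega
      omega
    · left
      rw [Finset.mem_image]
      refine ⟨n, ?_, h3⟩
      rw [Finset.mem_filter, mem_range]
      exact ⟨h1, h2, h4⟩
  · intro N n hn
    rw [Finset.mem_filter, mem_range] at hn
    obtain ⟨h1, h2, h3⟩ := hn
    have hNR : (0 : ℝ) < N := by
      have : 0 < N := by omega
      exact_mod_cast this
    have h3' : 1 ≤ n := by
      have : 1 ≤ LL N := by unfold LL; omega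
      omega
    obtain ⟨m, rfl⟩ := Nat.exists_eq_add_of_le' h3'
    have h5 : z (m + 1) = (nx (sq j D nx y m) (y (Nat.count (fun m => ¬ inB j m) (m + 1)))
        ((1 / 2) ^ (m + 1)) : ℝ) * α := by
      rw [hz]
      simp only [sq_succ_out j D nx y m h2]
    rw [h5]
    refine (hnx _ _ _ (by positivity)).trans ?_
    have h6 : N < 2 ^ (Nat.log 2 N + 1) := Nat.lt_pow_succ_log_self (by norm_num) N
    have h6R : (N : ℝ) ≤ 2 ^ (Nat.log 2 N + 1) := by exact_mod_cast h6.le
    have h7 : (N : ℝ) ^ 2 ≤ 2 ^ LL N := by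
      unfold LL
      rw [mul_comm, pow_mul]
      exact pow_le_pow_left₀ hNR.le h6R 2
    have h8 : (2 : ℝ) ^ LL N ≤ 2 ^ (m + 1) := pow_le_pow_right₀ (by norm_num) h3
    rw [one_div_pow]
    exact one_div_le_one_div_of_le (by positivity) (h7.trans h8)
  · -- N * e N → 0
    refine (tendsto_one_div_atTop_nhds_zero_nat (𝕜 := ℝ)).congr' ?_
    filter_upwards [eventually_ge_atTop 1] with N hN
    have hNR : (0 : ℝ) < N := by exact_mod_cast hN
    field_simp
  · -- pairs in D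
    intro s hs
    have h1 := (((SR_limN j hj hj').const_mul (5 : ℝ)).add LL_lim).const_mul (6 : ℝ)
    rw [mul_zero, add_zero, mul_zero] at h1
    refine squeeze_zero' (Eventually.of_forall (fun N => by positivity)) ?_ h1
    have hs1 : ∀ᶠ N : ℕ in atTop, s / (N : ℝ) ≤ 1 := by
      have h1 : Tendsto (fun N : ℕ => s / (N : ℝ)) atTop (𝓝 0) :=
        tendsto_const_div_atTop_nhds_zero_nat s
      exact (h1.eventually (gt_mem_nhds one_pos)).mono (fun N h => h.le)
    have hs2 : ∀ᶠ N : ℕ in atTop, SR j (Nat.log 2 N) ^ 2 / N < 1 / (2 * s) :=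
      (SR_limN j hj hj').eventually (gt_mem_nhds (by positivity))
    filter_upwards [eventually_ge_atTop 2, hs1, hs2] with N hN hsN hsk
    have hNR : (0 : ℝ) < N := by positivity
    have hδ0 : 0 < s / N := div_pos hs hNR
    have h2 : (range N).filter (fun n => inB j n ∨ n < LL N) ⊆ BB j N ∪ range (LL N) := by
      intro n hn
      unfold BB
      rw [Finset.mem_filter] at hn
      rw [Finset.mem_union, Finset.mem_filter, mem_range (n := LL N)]
      rcases hn.2 with h | h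
      · left; exact ⟨hn.1, h⟩
      · right; exact h
    have h3 := (Q_mono z h2 (s / N)).trans (Q_union_le6 z (BB j N) (range (LL N)) _ hδ0 hsN)
    have h4 : (Q z (BB j N) (BB j N) (s / N) : ℝ) ≤ 5 * SR j (Nat.log 2 N) ^ 2 := by
      apply Q_BB j z N _ hδ0 hsN
      intro k hk n hn n' hn' hne
      refine le_trans ?_ (sep_blk j D nx y α k (hD k) n n' hn hn' hne)
      have hm0 : (0 : ℝ) < mm j k := by exact_mod_cast mm_pos j k
      have h5 := mm_le_SR j (Nat.log 2 N) k hk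
      rw [div_lt_div_iff₀ hNR (by positivity)] at hsk
      rw [div_le_div_iff₀ hNR (by positivity)]
      nlinarith
    have h5 : (Q z (range (LL N)) (range (LL N)) (s / N) : ℝ) ≤ (LL N : ℝ) ^ 2 := by
      have := Q_le_card_sq z (range (LL N)) (s / N)
      rw [card_range] at this
      exact_mod_cast this
    have h3R : (Q z ((range N).filter (fun n => inB j n ∨ n < LL N))
        ((range N).filter (fun n => inB j n ∨ n < LL N)) (s / N) : ℝ) ≤
        6 * ((Q z (BB j N) (BB j N) (s / N) : ℝ) + (Q z (range (LL N)) (range (LL N)) (s / N) : ℝ)) := by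
      exact_mod_cast h3
    rw [mul_div_assoc', ← add_div, mul_div_assoc']
    apply div_le_div_of_nonneg_right _ hNR.le
    linarith
  · -- D'
    simp only [card_range]
    exact LL_lim

/-! ### The energy -/

/-- additive energy of the first `N` terms `a 0, …, a (N - 1)` -/
def en (a : ℕ → ℕ) (N : ℕ) : ℕ :=
  (((range N ×ˢ range N) ×ˢ (range N ×ˢ range N)).filter
    (fun p => a p.1.1 + a p.1.2 = a p.2.1 + a p.2.2)).card

lemma en_ge (a : ℕ → ℕ) (N b m d h : ℕ) (hN : b + m ≤ N) (hh : 2 * h ≤ m + 1)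
    (ha : ∀ i, i < m → a (b + i) = a b + i * d) : h ^ 3 ≤ en a N := by
  have h1 : h ^ 3 = ((range h ×ˢ range h) ×ˢ range h).card := by
    simp only [card_product, card_range]; ring
  rw [h1]
  unfold en
  apply Finset.card_le_card_of_injOn
    (fun p => ((b + (p.1.1 + p.2), b + p.1.2), (b + p.1.1, b + (p.1.2 + p.2))))
  · rintro ⟨⟨x, y⟩, z⟩ hp
    simp only [Finset.coe_product, Finset.coe_range, Set.mem_prod, Set.mem_Iio] at hp
    simp only [Finset.mem_coe, Finset.mem_filter, Finset.mem_product, Finset.mem_range]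
    obtain ⟨⟨hx, hy⟩, hz⟩ := hp
    refine ⟨⟨⟨by omega, by omega⟩, ⟨by omega, by omega⟩⟩, ?_⟩
    rw [ha _ (by omega), ha _ (by omega), ha _ (by omega), ha _ (by omega)]
    ring
  · rintro ⟨⟨x, y⟩, z⟩ _ ⟨⟨x', y'⟩, z'⟩ _ h
    simp only [Prod.mk.injEq] at h
    obtain ⟨⟨h1, h2⟩, ⟨h3, h4⟩⟩ := h
    have e1 : x = x' := by omega
    have e2 : y = y' := by omega
    have e3 : z = z' := by omega
    rw [e1, e2, e3]

theorem main (ψ : ℕ → ℝ) (hψ : Tendsto ψ atTop atTop) (α : ℝ) (hα : Irrational α) :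
    ∃ a : ℕ → ℕ, StrictMono a ∧ (∀ n, 0 < a n) ∧
      (∃ N₀ : ℕ, ∀ N : ℕ, N₀ ≤ N → (N : ℝ) ^ 3 / ψ N ≤ en a N) ∧
      PPC (fun n => (a n : ℝ) * α) := by
  obtain ⟨j, hj, hj', hjψ⟩ := exists_exponent ψ hψ
  obtain ⟨y, hy⟩ := exists_ppc
  have hex : ∀ (A : ℕ) (y ε : ℝ), ∃ n : ℕ, A < n ∧ (0 < ε → nd ((n : ℝ) * α - y) ≤ ε) := by
    intro A y ε
    by_cases hε : 0 < ε
    · obtain ⟨n, h1, h2⟩ := exists_mul_near α hα A y ε hε
      exact ⟨n, h1, fun _ => h2⟩
    · exact ⟨A + 1, by omega, fun h => absurd h hε⟩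
  choose nx hnx1 hnx2 using hex
  have hexD : ∀ k, ∃ n : ℕ, 0 < n ∧ nd ((n : ℝ) * α - 1 / (mm j k : ℝ)) ≤
      1 / (2 * (mm j k : ℝ) ^ 2) := by
    intro k
    have : (0 : ℝ) < mm j k := by exact_mod_cast mm_pos j k
    exact exists_mul_near α hα 0 _ _ (by positivity)
  choose D hD1 hD2 using hexD
  refine ⟨sq j D nx y, sq_strictMono j D nx y hD1 (fun A y ε _ => hnx1 A y ε),
    sq_pos j D nx y hD1 (fun A y ε _ => hnx1 A y ε), ?_,
    ppc_sq α j D nx y hy hj hj' hD2 (fun A y ε h => hnx2 A y ε h)⟩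
  obtain ⟨k0, hk0⟩ := eventually_atTop.1 hjψ
  refine ⟨2 ^ (k0 + 1), fun N hN => ?_⟩
  have hN0 : N ≠ 0 := by
    have : 0 < 2 ^ (k0 + 1) := by positivity
    omega
  have hlog : k0 + 1 ≤ Nat.log 2 N := Nat.le_log_of_pow_le (by norm_num) hN
  obtain ⟨k, hk⟩ := Nat.exists_eq_add_of_le' (show 1 ≤ Nat.log 2 N by omega)
  have hk1 : 2 ^ (k + 1) ≤ N := by
    rw [← hk]; exact Nat.pow_log_le_self 2 hN0
  have hk2 : N < 2 ^ (k + 2) := by
    have := Nat.lt_pow_succ_log_self (b := 2) (by norm_num) N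
    rwa [hk] at this
  have hψN := hk0 k (by omega) N hk1
  have hmk := mm_le j k
  have hE := en_ge (sq j D nx y) N (2 ^ k) (mm j k) (D k) ((mm j k + 1) / 2)
    (by rw [pow_succ] at hk1; omega) (by omega) (sq_blk j D nx y k)
  have hER : (((mm j k + 1) / 2 : ℕ) : ℝ) ^ 3 ≤ (en (sq j D nx y) N : ℝ) := by exact_mod_cast hE
  refine le_trans ?_ hER
  have h1 : (mm j k : ℝ) / 2 ≤ (((mm j k + 1) / 2 : ℕ) : ℝ) := by
    have : mm j k ≤ ((mm j k + 1) / 2) * 2 := by omega
    rw [div_le_iff₀ (by norm_num)]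
    exact_mod_cast this
  have h2 : ((mm j k : ℝ) / 2) ^ 3 ≤ (((mm j k + 1) / 2 : ℕ) : ℝ) ^ 3 :=
    pow_le_pow_left₀ (by positivity) h1 3
  refine le_trans ?_ h2
  have hψ0 : (0 : ℝ) < ψ N := lt_of_lt_of_le (by positivity) hψN
  rw [div_le_iff₀ hψ0]
  have h3 : (mm j k : ℝ) * 2 ^ j k = 2 ^ k := by
    unfold mm
    push_cast
    rw [← pow_add]
    congr 1
    have := hj k
    omega
  have h4 : (N : ℝ) ≤ 4 * 2 ^ k := by
    have : (N : ℝ) ≤ 2 ^ (k + 2) := by exact_mod_cast hk2.le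
    rw [pow_add] at this
    linarith
  calc (N : ℝ) ^ 3 ≤ (4 * 2 ^ k) ^ 3 := pow_le_pow_left₀ (by positivity) h4 3
    _ = ((mm j k : ℝ) / 2) ^ 3 * 2 ^ (9 + 3 * j k) := by
      rw [← h3, pow_add, pow_mul']
      ring
    _ ≤ ((mm j k : ℝ) / 2) ^ 3 * ψ N := mul_le_mul_of_nonneg_left hψN (by positivity)

end Pool.Agent.H673R3
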