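import Pool.Agent.H673R3.ThreshNum
import Pool.Agent.H505R5.PC.AE
import Pool.Agent.H505R5.PC.BC
import Pool.Agent.H505R5.PC.CHAR
import Pool.Agent.H505R5.PC.CNT
import Pool.Agent.H505R5.PC.CX
import Pool.Agent.H505R5.PC.FIN
import Pool.Agent.H505R5.PC.HIGH
import Pool.Agent.H505R5.PC.HLD
import Pool.Agent.H505R5.PC.HOL
import Pool.Agent.H505R5.PC.IND
import Pool.Agent.H505R5.PC.JEN
import Pool.Agent.H505R5.PC.LEN
import Pool.Agent.H505R5.PC.LOW
import Pool.Agent.H505R5.PC.M1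
import Pool.Agent.H505R5.PC.M2
import Pool.Agent.H505R5.PC.M3
import Pool.Agent.H505R5.PC.MOMZ
import Pool.Agent.H505R5.PC.NUM1
import Pool.Agent.H505R5.PC.NUM2
import Pool.Agent.H505R5.PC.NUM3
import Pool.Agent.H505R5.PC.PRM
import Pool.Agent.H505R5.PC.PS
import Pool.Agent.H505R5.PC.Q2B
import Pool.Agent.H505R5.PC.Q4B
import Pool.Agent.H505R5.PC.RHO
import Pool.Agent.H505R5.PC.RNK
import Pool.Agent.H505R5.PC.ST
import Pool.Agent.H505R5.PC.VH
import Pool.Agent.H505R5.PC.VL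

/-! Metric Poissonian pair correlations below the threshold
`log N * exp (8 * sqrt (log log N * log log log N))`. -/

set_option autoImplicit false

open MeasureTheory Finset Filter Topology Asymptotics
open scoped BigOperators ENNReal

namespace Pool.Agent.H673R3

open Pool.Agent.H505R5.PC

/-- the bound for the exceptional sets -/
noncomputable def bd (N : ℕ) : ℝ := 1 / (Real.log N * Real.log (Real.log N) ^ 2)

/-- the popular differences -/
theorem high (c₀ s ε : ℝ) (hc₀ : 0 < c₀) (hs : 0 < s) (hε : 0 < ε) :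
    ∃ N₀ : ℕ, ∀ A : Finset ℤ, N₀ ≤ A.card →
    (En A : ℝ) ≤ c₀ * (A.card : ℝ) ^ 3 / thr A.card →
    (volume : Measure T).real {α | ε * A.card < |∑ v ∈ (Df A).filter
      (fun v => (A.card : ℝ) / (Real.log A.card) ^ 30 ≤ rp A v),
      (rp A v : ℝ) * (ind (s / A.card) v α - 2 * (s / A.card))|} ≤ bd A.card / 2 := by
  have hVH : S_VH := t_VH t_M1 (t_M2 t_M1) t_M3
  have hHOL : S_HOL := t_HOL t_CHAR t_MOMZ t_HLD
  have hQ4' : S_Q4B := t_Q4B (t_CX t_ST)
  have hLEN : S_LEN := t_LEN t_IND t_JEN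
  have hRHO : S_RHO := t_RHO hLEN t_PRM t_RNK
  have hCNT : S_CNT := t_CNT
  obtain ⟨c₁, hc₁, hQ4⟩ := hQ4'
  set Q : ℝ := 12 * s / ε + 72 * s ^ 2 / ε ^ 2 + 18 * s / ε ^ 2 with hQ
  have hQ0 : 0 < Q := by positivity
  have hev : ∀ᶠ N : ℕ in atTop, (2 * s ≤ (N : ℝ)) ∧ max 1 (4 * Q) ≤ Real.log N ∧
      1 ≤ Real.log (Real.log N) ∧ 3 ≤ N := by
    refine (tendsto_natCast_atTop_atTop.eventually (eventually_ge_atTop _)).and
      ((tendsto_l.eventually (eventually_ge_atTop _)).and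
      ((tendsto_ll.eventually (eventually_ge_atTop _)).and (eventually_ge_atTop _)))
  obtain ⟨N₀, hN₀⟩ := eventually_atTop.1
    ((hev.and num1).and (num2 c₀ c₁ (72 * s / ε ^ 2) hc₀ hc₁ (by positivity)))
  refine ⟨N₀, ?_⟩
  intro A hA hEn
  obtain ⟨⟨⟨h2s, hlM, hll1, hN3⟩, hK1, hKH, hτ0, hτ2, hK3⟩, k, hk, hN2'⟩ := hN₀ A.card hA
  have hne : A.Nonempty := Finset.card_pos.1 (by omega)
  set N : ℝ := (A.card : ℝ) with hNdef
  set l : ℝ := Real.log N with hl
  have hNpos : 0 < N := by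
    rw [hNdef]
    exact_mod_cast (by omega : 0 < A.card)
  have hl1 : 1 ≤ l := (le_max_left _ _).trans hlM
  have hlQ : 4 * Q ≤ l := (le_max_right _ _).trans hlM
  have hl0 : 0 < l := by linarith
  set K : ℕ := Kt A.card with hKdef
  set H : ℕ := ⌈N * l ^ 4⌉₊ with hHdef
  set D : Finset ℤ := (Df A).filter (fun v => N / l ^ 30 ≤ rp A v) with hDdef
  set ρ : ℤ → ℝ := fun v => (rp A v : ℝ) with hρdef
  have hρ0 : ∀ v, 0 ≤ ρ v := fun v => Nat.cast_nonneg _
  have h0D : (0 : ℤ) ∉ D := by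
    intro h
    have h1 := (Finset.mem_filter.1 h).1
    unfold Df at h1
    exact (Finset.mem_erase.1 h1).1 rfl
  obtain ⟨-, hsum, -, hsq⟩ := hCNT A (s / N) 0 hne
  have hDsub : D ⊆ Df A := Finset.filter_subset _ _
  have hσ : ∑ v ∈ D, ρ v ≤ N ^ 2 :=
    (Finset.sum_le_sum_of_subset_of_nonneg hDsub fun v _ _ => hρ0 v).trans hsum
  have hσ0 : 0 ≤ ∑ v ∈ D, ρ v := Finset.sum_nonneg fun v _ => hρ0 v
  have hsq' : ∑ v ∈ D, ρ v ^ 2 ≤ (En A : ℝ) :=
    (Finset.sum_le_sum_of_subset_of_nonneg hDsub fun v _ _ => sq_nonneg _).trans hsq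
  set r : ℝ := (l ^ 4)⁻¹ with hr
  have hr0 : 0 ≤ r := by positivity
  have hr1 : r ≤ 1 := by
    rw [hr]
    exact inv_le_one_of_one_le₀ (one_le_pow₀ hl1)
  have hr4 : l ^ (-(4 : ℝ)) = r := by
    rw [Real.rpow_neg hl0.le, hr]
    congr 1
    exact_mod_cast Real.rpow_natCast l 4
  have hcondr : ∀ v ∈ D, ∑ q ∈ (D.filter (fun w => ht v w ≤ H)).image (qn v),
      (1 : ℝ) / max q K ≤ r := by
    intro v hv
    have h1 := hRHO A (l ^ 30) (1 / (63 * Real.log l)) ⌈l⌉₊ K H hne (one_le_pow₀ hl1) hτ0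
      hτ2 (Nat.one_le_iff_ne_zero.2 (Nat.ceil_pos.2 hl0).ne') (Nat.le_ceil _) hK1 hKH
      v hv
    rw [← hr4]
    exact h1.trans hK3
  have hV := hVH D ρ (s / N) (ε * N) r K H h0D hρ0 (by positivity) (by
    rw [div_le_iff₀ hNpos]
    linarith) (by positivity) hK1 hKH hr0 hr1 hcondr
  set g : ℝ := G D ρ K with hg
  have hg0 : 0 ≤ g := HIGH_Gnonneg D ρ K hρ0
  have hgk : g ^ k ≤ (2 * (c₀ * N ^ 3 / thr A.card)) ^ (k - 2) * (c₁ * (1 + l) ^ 2 * N ^ 6) *
      harm K ^ (k ^ 2) := by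
    refine (hHOL D ρ K k h0D hρ0 hk).trans ?_
    have h1 : Q2 D ρ ≤ 2 * (c₀ * N ^ 3 / thr A.card) :=
      (t_Q2B D ρ hρ0).trans (mul_le_mul_of_nonneg_left (hsq'.trans hEn) (by norm_num))
    have h2 : Q4 D ρ ≤ c₁ * (1 + l) ^ 2 * N ^ 6 := hQ4 A D hne h0D
    have h3 := HIGH_Q2nonneg D ρ hρ0
    have h4 := HIGH_Q4nonneg D ρ hρ0
    have h5 := HIGH_harm K
    have h6 : 0 ≤ 2 * (c₀ * N ^ 3 / thr A.card) := h3.trans h1
    refine mul_le_mul_of_nonneg_right ?_ (by positivity)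
    exact mul_le_mul (pow_le_pow_left₀ h3 h1 _) h2 h4 (by positivity)
  have hBg := hN2' g hg0 hgk
  have hHle : N * l ^ 4 ≤ (H : ℝ) := Nat.le_ceil _
  have hfin := HIGH_arith hNpos hs hε hσ0 hσ hg0 hr0 hl0 hr hHle hV
  rw [← hQ] at hfin
  refine hfin.trans ?_
  have hbd : bd A.card = 1 / (l * Real.log l ^ 2) := rfl
  rw [hbd]
  have h7 : 18 * s / ε ^ 2 * (g / N ^ 3) ≤ 1 / (l * Real.log l ^ 2) / 4 := by
    have e1 : 18 * s / ε ^ 2 * (g / N ^ 3) = (72 * s / ε ^ 2 * g / N ^ 3) / 4 := by ring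
    rw [e1]
    linarith
  have hll0 : 0 < Real.log l := by linarith
  have hlle : Real.log l ≤ l := (Real.log_le_sub_one_of_pos hl0).trans (by linarith)
  have h8 : Q * r ≤ 1 / (l * Real.log l ^ 2) / 4 := by
    rw [hr, div_div, ← div_eq_mul_inv, div_le_div_iff₀ (by positivity) (by positivity)]
    have e1 : Real.log l ^ 2 ≤ l ^ 2 := pow_le_pow_left₀ hll0.le hlle 2
    calc Q * (l * Real.log l ^ 2 * 4) ≤ Q * (l * l ^ 2 * 4) := by gcongr
      _ = (4 * Q) * l ^ 3 := by ring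
      _ ≤ l * l ^ 3 := by gcongr
      _ = 1 * l ^ 4 := by ring
  linarith

/-- the theorem for one set -/
theorem ps (c₀ s ε : ℝ) (hc₀ : 0 < c₀) (hs : 0 < s) (hε : 0 < ε) :
    ∃ N₀ : ℕ, ∀ A : Finset ℤ, N₀ ≤ A.card →
    (En A : ℝ) ≤ c₀ * (A.card : ℝ) ^ 3 / thr A.card →
    (volume : Measure T).real {α | ε < |(Cnt A (s / A.card) α : ℝ) / A.card - 2 * s|} ≤
      bd A.card := by
  have hQ4 : S_Q4B := t_Q4B (t_CX t_ST)
  have hHOL : S_HOL := t_HOL t_CHAR t_MOMZ t_HLD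
  have hLOW : S_LOW := t_LOW (t_VL t_M1 (t_M2 t_M1)) hHOL t_Q2B hQ4 t_CNT t_NUM3
  obtain ⟨N₁, hN₁⟩ := high c₀ s (ε / 4) hc₀ hs (by positivity)
  obtain ⟨N₂, hN₂⟩ := hLOW s (ε / 4) hs (by positivity)
  have hlogs : ∀ᶠ x : ℝ in atTop, 2 * Real.log x ≤ x := by
    have h1 := Real.isLittleO_log_id_atTop.bound (show (0 : ℝ) < 1 / 2 by norm_num)
    filter_upwards [h1, eventually_ge_atTop 1] with x hx hx1
    have h2 : 0 ≤ Real.log x := Real.log_nonneg hx1
    rw [Real.norm_of_nonneg h2, id, Real.norm_of_nonneg (by linarith)] at hx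
    linarith
  have hev : ∀ᶠ N : ℕ in atTop, 2 * Real.log (Real.log N) ≤ Real.log N ∧
      1 ≤ Real.log (Real.log N) ∧ 1 ≤ Real.log N :=
    (tendsto_l.eventually hlogs).and ((tendsto_ll.eventually (eventually_ge_atTop _)).and
      (tendsto_l.eventually (eventually_ge_atTop _)))
  obtain ⟨N₃, hN₃⟩ := eventually_atTop.1 hev
  obtain ⟨N₄, hN₄⟩ := exists_nat_gt (8 * s / ε)
  refine ⟨max (max N₁ N₂) (max N₃ (N₄ + 1)), ?_⟩
  intro A hA hEn
  have hA1 : N₁ ≤ A.card := ((le_max_left _ _).trans (le_max_left _ _)).trans hA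
  have hA2 : N₂ ≤ A.card := ((le_max_right _ _).trans (le_max_left _ _)).trans hA
  have hA3 : N₃ ≤ A.card := ((le_max_left _ _).trans (le_max_right _ _)).trans hA
  have hA4 : N₄ + 1 ≤ A.card := ((le_max_right _ _).trans (le_max_right _ _)).trans hA
  obtain ⟨hl2, hll1, hl1⟩ := hN₃ A.card hA3
  have hAne : A.Nonempty := by
    rw [← Finset.card_pos]; omega
  have hnum : (Real.log A.card) ^ (-(3 : ℝ)) ≤ bd A.card / 2 := by
    unfold bd
    set l := Real.log (A.card : ℝ) with hl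
    have hl0 : 0 < l := by linarith
    have hll0 : 0 < Real.log l := by linarith
    have e1 : l ^ (-(3 : ℝ)) = 1 / l ^ 3 := by
      rw [Real.rpow_neg hl0.le, one_div]
      congr 1
      exact_mod_cast Real.rpow_natCast l 3
    rw [e1, div_div, div_le_div_iff₀ (by positivity) (by positivity)]
    have e2 : (2 * Real.log l) ^ 2 ≤ l ^ 2 := pow_le_pow_left₀ (by positivity) hl2 2
    nlinarith [mul_le_mul_of_nonneg_left e2 hl0.le]
  obtain ⟨N, hN⟩ : ∃ N : ℝ, N = (A.card : ℝ) := ⟨_, rfl⟩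
  have hN0 : 0 < N := by
    rw [hN]; exact_mod_cast Finset.card_pos.2 hAne
  have hNs : 2 * s / N < ε / 4 := by
    have h4 : 8 * s / ε < N := by
      refine hN₄.trans_le ?_
      rw [hN]
      exact_mod_cast (by omega : N₄ ≤ A.card)
    rw [div_lt_iff₀ hε] at h4
    rw [div_lt_iff₀ hN0]
    linarith
  have hlow := (hN₂ A hA2).trans hnum
  have hhigh := hN₁ A hA1 hEn
  refine le_trans ?_ ((add_le_add hlow hhigh).trans (le_of_eq (add_halves _)))
  refine le_trans (measureReal_mono ?_ (by finiteness)) (measureReal_union_le _ _)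
  intro α hα
  rw [Set.mem_ofPred_eq] at hα
  rw [Set.mem_union, Set.mem_ofPred_eq, Set.mem_ofPred_eq]
  by_contra hcon
  push Not at hcon
  obtain ⟨g1, g2⟩ := hcon
  have hcnt := (t_CNT A (s / A.card) α hAne).1
  have hsplit := Finset.sum_filter_add_sum_filter_not (Df A)
    (fun v => (rp A v : ℝ) < A.card / (Real.log A.card) ^ 30)
    (fun v => (rp A v : ℝ) * (ind (s / A.card) v α - 2 * (s / A.card)))
  simp only [not_lt] at hsplit
  rw [← hsplit] at hcnt
  obtain ⟨S1, hS1⟩ : ∃ S1 : ℝ, S1 = ∑ v ∈ (Df A).filter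
      (fun v => (rp A v : ℝ) < A.card / (Real.log A.card) ^ 30),
      (rp A v : ℝ) * (ind (s / A.card) v α - 2 * (s / A.card)) := ⟨_, rfl⟩
  obtain ⟨S2, hS2⟩ : ∃ S2 : ℝ, S2 = ∑ v ∈ (Df A).filter
      (fun v => (A.card : ℝ) / (Real.log A.card) ^ 30 ≤ rp A v),
      (rp A v : ℝ) * (ind (s / A.card) v α - 2 * (s / A.card)) := ⟨_, rfl⟩
  rw [← hS1] at g1 hcnt
  rw [← hS2] at g2 hcnt
  rw [← hN] at hcnt hα g1 g2
  have e1 : (Cnt A (s / N) α : ℝ) / N - 2 * s = (S1 + S2) / N - 2 * s / N := by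
    rw [← hcnt]
    field_simp
    ring
  rw [e1] at hα
  have h5 : |(S1 + S2) / N - 2 * s / N| ≤ ε / 4 + ε / 4 + ε / 4 := by
    have a1 : |(S1 + S2) / N| ≤ ε / 4 + ε / 4 := by
      rw [abs_div, abs_of_pos hN0, div_le_iff₀ hN0]
      have := abs_add_le S1 S2
      linarith
    have a2 : |2 * s / N| ≤ ε / 4 := by
      rw [abs_of_pos (by positivity)]
      exact hNs.le
    have a3 := abs_sub ((S1 + S2) / N) (2 * s / N)
    linarith
  linarith

/-! ### Borel-Cantelli -/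

/-- a convergent series -/
lemma summable_log_sq : Summable (fun j : ℕ => 1 / ((j : ℝ) * Real.log j ^ 2)) := by
  -- monotone modification
  have h1 : Summable (fun j : ℕ => if j ≤ 1 then (3 : ℝ) else 1 / ((j : ℝ) * Real.log j ^ 2)) := by
    rw [← summable_condensed_iff_of_nonneg]
    · have h2 : Summable (fun k : ℕ => 1 / Real.log 2 ^ 2 * (1 / (k : ℝ) ^ 2)) :=
        (Real.summable_one_div_nat_pow.2 (by norm_num)).mul_left _
      refine (summable_congr_atTop ?_).2 h2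
      filter_upwards [eventually_ge_atTop 1] with k hk
      have h3 : ¬ (2 ^ k ≤ 1) := by
        have : 2 ^ 1 ≤ 2 ^ k := Nat.pow_le_pow_right (by norm_num) hk
        omega
      rw [if_neg h3]
      have h4 : (0 : ℝ) < Real.log 2 := Real.log_pos (by norm_num)
      have h5 : (0 : ℝ) < k := by exact_mod_cast hk
      push_cast
      rw [Real.log_pow]
      field_simp
    · intro n
      split_ifs
      · norm_num
      · positivity
    · intro m n hm hmn
      by_cases hn : n ≤ 1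
      · rw [if_pos hn, if_pos (by omega)]
      · rw [if_neg hn]
        by_cases hm1 : m ≤ 1
        · rw [if_pos hm1]
          have h2n : (2 : ℝ) ≤ n := by exact_mod_cast (by omega : 2 ≤ n)
          have h3 : Real.log 2 ≤ Real.log n := Real.log_le_log (by norm_num) h2n
          have h4 := Real.log_two_gt_d9
          have h6 : (0.69 : ℝ) ≤ Real.log n := by linarith
          have h5 : (0.69 : ℝ) ^ 2 ≤ Real.log n ^ 2 := pow_le_pow_left₀ (by norm_num) h6 2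
          have h7 : (0 : ℝ) < (n : ℝ) * Real.log n ^ 2 := by positivity
          rw [div_le_iff₀ h7]
          nlinarith
        · rw [if_neg hm1]
          have h2m : (2 : ℝ) ≤ m := by exact_mod_cast (by omega : 2 ≤ m)
          have hmnR : (m : ℝ) ≤ n := by exact_mod_cast hmn
          have h3 : 0 < Real.log m := Real.log_pos (by linarith)
          have h4 : Real.log m ≤ Real.log n := Real.log_le_log (by linarith) hmnR
          apply one_div_le_one_div_of_le (by positivity)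
          gcongr
  refine (summable_congr_atTop ?_).1 h1
  filter_upwards [eventually_ge_atTop 2] with j hj
  rw [if_neg (by omega)]

theorem bc (a : ℕ → ℤ) (c₀ s ε θ : ℝ) (ha : Function.Injective a) (hc₀ : 0 < c₀)
    (hs : 0 < s) (hε : 0 < ε) (hθ : 0 < θ)
    (hE : ∀ᶠ N : ℕ in atTop, (En (fst a N) : ℝ) ≤ c₀ * (N : ℝ) ^ 3 / thr N) :
    ∀ᵐ α : T, ∀ᶠ j : ℕ in atTop,
      |(Cnt (fst a ⌊(1 + θ) ^ j⌋₊) (s / ⌊(1 + θ) ^ j⌋₊) α : ℝ) / ⌊(1 + θ) ^ j⌋₊ - 2 * s| ≤ ε := by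
  obtain ⟨N₀, hN₀⟩ := ps c₀ s ε hc₀ hs hε
  set δ : ℝ := Real.log (1 + θ) / 2 with hδ
  have hδ0 : 0 < δ := by
    have : 0 < Real.log (1 + θ) := Real.log_pos (by linarith)
    positivity
  set S : ℕ → Set T := fun j => {α | ε < |(Cnt (fst a ⌊(1 + θ) ^ j⌋₊)
    (s / ⌊(1 + θ) ^ j⌋₊) α : ℝ) / ⌊(1 + θ) ^ j⌋₊ - 2 * s|} with hS
  have hbound : ∀ᶠ j : ℕ in atTop, ‖(volume : Measure T).real (S j)‖ ≤
      (4 / δ) * (1 / ((j : ℝ) * Real.log j ^ 2)) := by
    have hj4 : ∀ᶠ j : ℕ in atTop, (1 / δ) ^ 2 ≤ (j : ℝ) ∧ (2 : ℝ) ≤ j :=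
      (tendsto_natCast_atTop_atTop.eventually (eventually_ge_atTop _)).and
        (tendsto_natCast_atTop_atTop.eventually (eventually_ge_atTop _))
    filter_upwards [BC_log θ hθ, (BC_tendsto θ hθ).eventually_ge_atTop N₀,
      (BC_tendsto θ hθ).eventually hE, hj4] with j hj hjN hjE hj4
    obtain ⟨hjδ, hj2⟩ := hj4
    have h1 := hN₀ (fst a ⌊(1 + θ) ^ j⌋₊) (by rw [BC_card a ha]; exact hjN)
      (by rw [BC_card a ha]; exact hjE)
    rw [BC_card a ha] at h1
    have hjr : (0 : ℝ) < j := by linarith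
    have hlj : 0 < Real.log j := Real.log_pos (by linarith)
    rw [Real.norm_of_nonneg measureReal_nonneg]
    refine h1.trans ?_
    unfold bd
    set l := Real.log (⌊(1 + θ) ^ j⌋₊ : ℝ) with hl
    have hl1 : δ * j ≤ l := by rw [mul_comm]; exact hj
    have hl0 : 0 < l := lt_of_lt_of_le (by positivity) hl1
    -- `δ j ≥ sqrt j`
    have h2 : Real.sqrt j ≤ δ * j := by
      have e1 : Real.sqrt j * Real.sqrt j = j := Real.mul_self_sqrt hjr.le
      have e2 : 1 / δ ≤ Real.sqrt j := Real.le_sqrt_of_sq_le hjδ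
      rw [div_le_iff₀ hδ0] at e2
      have e3 : 0 ≤ Real.sqrt j := Real.sqrt_nonneg _
      calc Real.sqrt j = 1 * Real.sqrt j := by ring
        _ ≤ (Real.sqrt j * δ) * Real.sqrt j := mul_le_mul_of_nonneg_right e2 e3
        _ = δ * (Real.sqrt j * Real.sqrt j) := by ring
        _ = δ * j := by rw [e1]
    have h3 : Real.log j / 2 ≤ Real.log l := by
      have e1 : Real.log (Real.sqrt j) = Real.log j / 2 := Real.log_sqrt hjr.le
      rw [← e1]
      exact Real.log_le_log (Real.sqrt_pos.2 hjr) (h2.trans hl1)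
    have h4 : (δ * j) * (Real.log j / 2) ^ 2 ≤ l * Real.log l ^ 2 := by gcongr
    calc 1 / (l * Real.log l ^ 2) ≤ 1 / ((δ * j) * (Real.log j / 2) ^ 2) :=
          one_div_le_one_div_of_le (by positivity) h4
      _ = _ := by field_simp; ring
  have hsum : Summable (fun j => (volume : Measure T).real (S j)) := by
    apply Summable.of_norm_bounded_eventually_nat
      (g := fun j : ℕ => (4 / δ) * (1 / ((j : ℝ) * Real.log j ^ 2)))
    · exact summable_log_sq.mul_left _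
    · exact hbound
  have hne : ∑' j, (volume : Measure T) (S j) ≠ ∞ := by
    have h1 : (fun j => (volume : Measure T) (S j)) =
        fun j => ENNReal.ofReal ((volume : Measure T).real (S j)) := by
      funext j
      rw [ofReal_measureReal]
    rw [h1]
    exact hsum.tsum_ofReal_ne_top
  filter_upwards [ae_eventually_notMem hne] with α hα
  filter_upwards [hα] with j hj
  simpa [hS] using hj

theorem aeT (a : ℕ → ℤ) (c₀ : ℝ) (ha : Function.Injective a) (hc : 0 < c₀)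
    (hE : ∀ᶠ N : ℕ in atTop, (En (fst a N) : ℝ) ≤ c₀ * (N : ℝ) ^ 3 / thr N) :
    ∀ᵐ α : T, ∀ s : ℝ, 0 < s →
      Tendsto (fun N : ℕ => (Cnt (fst a N) (s / N) α : ℝ) / N) atTop (𝓝 (2 * s)) := by
  have hall : ∀ᵐ α : T, ∀ (q : {q : ℚ // 0 < q}) (n m : ℕ), ∀ᶠ j : ℕ in atTop,
      |(Cnt (fst a ⌊(1 + 1 / ((m : ℝ) + 1)) ^ j⌋₊)
        (((q : ℚ) : ℝ) / ⌊(1 + 1 / ((m : ℝ) + 1)) ^ j⌋₊) α : ℝ) /
        ⌊(1 + 1 / ((m : ℝ) + 1)) ^ j⌋₊ - 2 * ((q : ℚ) : ℝ)| ≤ 1 / ((n : ℝ) + 1) := by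
    rw [ae_all_iff]
    intro q
    rw [ae_all_iff]
    intro n
    rw [ae_all_iff]
    intro m
    exact bc a c₀ ((q : ℚ) : ℝ) (1 / ((n : ℝ) + 1)) (1 / ((m : ℝ) + 1)) ha hc
      (by exact_mod_cast q.2) (by positivity) (by positivity) hE
  filter_upwards [hall] with α hα
  intro s hs
  exact AE_det (fun N η => (Cnt (fst a N) η α : ℝ)) (fun N η => Nat.cast_nonneg _)
    (fun N N' η η' hN hη => by
      exact_mod_cast AE_mono (image_subset_image (range_subset_range.2 hN)) hη α)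
    (fun q hq n m => hα ⟨q, hq⟩ n m) s hs

theorem mainQ1 (a : ℕ → ℤ) (ha : Function.Injective a)
    (hO : (fun N : ℕ => (EnSeq a N : ℝ)) =O[atTop] (fun N : ℕ => (N : ℝ) ^ 3 / thr N)) :
    ∀ᵐ α : ℝ, Pool.Agent.H505R5.PC.PPC (fun n => Int.fract (a n * α)) := by
  obtain ⟨c, hc0, hc⟩ := hO.exists_pos
  have hE : ∀ᶠ N : ℕ in atTop, (En (fst a N) : ℝ) ≤ c * (N : ℝ) ^ 3 / thr N := by
    filter_upwards [hc.bound, tendsto_l.eventually (eventually_ge_atTop 1)] with N hN hl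
    rw [← FIN_energy a ha N, mul_div_assoc]
    have hthr : 0 < thr N := by
      unfold thr
      have : 0 < Real.log N := by linarith
      positivity
    rw [Real.norm_of_nonneg (Nat.cast_nonneg _), Real.norm_of_nonneg (by positivity)] at hN
    exact hN
  have h2 := aeT a c ha hc0 hE
  filter_upwards [FIN_ae _ h2] with x hx
  intro s hs
  have h3 := hx s hs
  refine h3.congr ?_
  intro N
  rw [FIN_count a ha N (s / N) x]
  ring

end Pool.Agent.H673R3
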