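import Pool.Agent.H505R5.PC.NUM1
import Pool.Agent.H505R5.PC.NUM2

/-! Numerical estimates for the threshold `log N * exp (8 * sqrt (log log N * log log log N))`. -/

set_option autoImplicit false

open Finset Filter Topology

namespace Pool.Agent.H673R3

open Pool.Agent.H505R5.PC

/-- the threshold -/
noncomputable def thr (N : ℕ) : ℝ :=
  Real.log N * Real.exp (8 * Real.sqrt (Real.log (Real.log N) * Real.log (Real.log (Real.log N))))

/-- the truncation height -/
noncomputable def Kt (N : ℕ) : ℕ := ⌊Real.exp (50000 * Real.log (Real.log N) ^ 2)⌋₊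

lemma tendsto_l : Tendsto (fun N : ℕ => Real.log (N : ℝ)) atTop atTop :=
  Real.tendsto_log_atTop.comp tendsto_natCast_atTop_atTop

lemma tendsto_ll : Tendsto (fun N : ℕ => Real.log (Real.log (N : ℝ))) atTop atTop :=
  Real.tendsto_log_atTop.comp tendsto_l

lemma tendsto_lll : Tendsto (fun N : ℕ => Real.log (Real.log (Real.log (N : ℝ)))) atTop atTop :=
  Real.tendsto_log_atTop.comp tendsto_ll

/-- the height and the primes -/
lemma num1 : ∀ᶠ N : ℕ in atTop,
    1 ≤ Kt N ∧ Kt N ≤ ⌈N * Real.log N ^ 4⌉₊ ∧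
    0 < 1 / (63 * Real.log (Real.log N)) ∧ 1 / (63 * Real.log (Real.log N)) ≤ 1 / 2 ∧
    (Kt N : ℝ) ^ (-(1 / (63 * Real.log (Real.log N)))) *
      Real.exp (4 * ((⌈Real.log N⌉₊ : ℝ) + 3 * ⌈Real.log N⌉₊ * (Real.log N ^ 30) ^ 2 *
        Nat.log 2 ⌈N * Real.log N ^ 4⌉₊ + 1) ^ (1 / (63 * Real.log (Real.log N))) /
          (1 / (63 * Real.log (Real.log N)))) ≤ (Real.log N) ^ (-(4 : ℝ)) := by
  have hlog2 : ∀ᶠ x : ℝ in atTop, 50000 * Real.log x ^ 2 ≤ x := by
    have h1 := (isLittleO_log_rpow_atTop (show (0 : ℝ) < 1 / 2 by norm_num)).bound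
      (show (0 : ℝ) < 1 / 300 by norm_num)
    filter_upwards [h1, eventually_ge_atTop 1] with x hx hx1
    have hx0 : 0 < x := by linarith
    have h2 : 0 ≤ Real.log x := Real.log_nonneg hx1
    rw [Real.norm_of_nonneg h2, Real.norm_of_nonneg (by positivity)] at hx
    have h3 : Real.log x ^ 2 ≤ (1 / 300 * x ^ (1 / 2 : ℝ)) ^ 2 := pow_le_pow_left₀ h2 hx 2
    have h4 : (x ^ (1 / 2 : ℝ)) ^ 2 = x := by
      rw [← Real.rpow_natCast, ← Real.rpow_mul hx0.le]; norm_num
    rw [mul_pow, h4] at h3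
    nlinarith
  filter_upwards [tendsto_l.eventually hlog2, tendsto_l.eventually NUM1_poly, NUM1_log,
    tendsto_l.eventually (eventually_ge_atTop 1), tendsto_ll.eventually (eventually_ge_atTop 1),
    eventually_ge_atTop 3] with N h1 h2 h3 h4 h5 hN3
  have hNpos : (0:ℝ) < N := by exact_mod_cast (by omega : 0 < N)
  unfold Kt
  set L := Real.log N with hL
  set l := Real.log L with hl
  have hL0 : 0 < L := by linarith
  have hl0 : 0 < l := by linarith
  have hex : Real.exp L = N := by rw [hL, Real.exp_log hNpos]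
  have hτ : 0 < 1 / (63 * l) := by positivity
  have hexp1 : 1 ≤ Real.exp (50000 * l ^ 2) := Real.one_le_exp (by positivity)
  have hfl : 1 ≤ ⌊Real.exp (50000 * l ^ 2)⌋₊ := Nat.le_floor (by exact_mod_cast hexp1)
  refine ⟨hfl, ?_, hτ, ?_, ?_⟩
  · have hle : Real.exp (50000 * l ^ 2) ≤ N * L ^ 4 := by
      calc Real.exp (50000 * l ^ 2) ≤ Real.exp L := Real.exp_le_exp.2 h1
        _ = N * 1 := by rw [hex, mul_one]
        _ ≤ N * L ^ 4 := by
          have : (1:ℝ) ≤ L ^ 4 := one_le_pow₀ h4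
          gcongr
    have := (Nat.floor_le (Real.exp_pos (50000 * l ^ 2)).le).trans (hle.trans (Nat.le_ceil _))
    exact_mod_cast this
  · rw [div_le_div_iff₀ (by positivity) (by norm_num)]
    linarith
  · have hc : (⌈L⌉₊ : ℝ) ≤ 2 * L := by
      have := Nat.ceil_lt_add_one hL0.le
      linarith
    have hB : (⌈L⌉₊ : ℝ) + 3 * ⌈L⌉₊ * (L ^ 30) ^ 2 * Nat.log 2 ⌈N * L ^ 4⌉₊ + 1 ≤ L ^ 63 := by
      refine le_trans ?_ h2
      have : 3 * (⌈L⌉₊ : ℝ) * (L ^ 30) ^ 2 * Nat.log 2 ⌈N * L ^ 4⌉₊ ≤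
          3 * (2 * L) * (L ^ 30) ^ 2 * (9 * L) := by
        gcongr
      linarith
    have hB0 : (0:ℝ) ≤ (⌈L⌉₊ : ℝ) + 3 * ⌈L⌉₊ * (L ^ 30) ^ 2 * Nat.log 2 ⌈N * L ^ 4⌉₊ + 1 := by
      positivity
    have hB2 : ((⌈L⌉₊ : ℝ) + 3 * ⌈L⌉₊ * (L ^ 30) ^ 2 * Nat.log 2 ⌈N * L ^ 4⌉₊ + 1) ^
        (1 / (63 * l)) ≤ Real.exp 1 := by
      calc _ ≤ (L ^ 63) ^ (1 / (63 * l)) := Real.rpow_le_rpow hB0 hB hτ.le
        _ = Real.exp 1 := by
          rw [← Real.rpow_natCast L 63, ← Real.rpow_mul hL0.le, Real.rpow_def_of_pos hL0]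
          congr 1
          rw [← hl]
          push_cast
          field_simp
    have he1 : Real.exp 1 < 2.7182818286 := Real.exp_one_lt_d9
    have hK : Real.exp (50000 * l ^ 2) / 2 ≤ (⌊Real.exp (50000 * l ^ 2)⌋₊ : ℝ) := by
      have h5 := Nat.lt_floor_add_one (Real.exp (50000 * l ^ 2))
      have h6 : (1:ℝ) ≤ (⌊Real.exp (50000 * l ^ 2)⌋₊ : ℝ) := by exact_mod_cast hfl
      linarith
    have hK2 : (⌊Real.exp (50000 * l ^ 2)⌋₊ : ℝ) ^ (-(1 / (63 * l))) ≤
        Real.exp (Real.log 2 * (1 / (63 * l)) - (1 / (63 * l)) * (50000 * l ^ 2)) := by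
      calc (⌊Real.exp (50000 * l ^ 2)⌋₊ : ℝ) ^ (-(1 / (63 * l)))
          ≤ (Real.exp (50000 * l ^ 2) / 2) ^ (-(1 / (63 * l))) :=
            Real.rpow_le_rpow_of_nonpos (by positivity) hK (by linarith)
        _ = _ := by
          rw [Real.rpow_def_of_pos (by positivity), Real.log_div (by positivity) (by norm_num),
            Real.log_exp]
          congr 1; ring
    have hR : L ^ (-(4:ℝ)) = Real.exp (-(4 * l)) := by
      rw [Real.rpow_def_of_pos hL0, ← hl]; congr 1; ring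
    rw [hR]
    have hA : 4 * ((⌈L⌉₊ : ℝ) + 3 * ⌈L⌉₊ * (L ^ 30) ^ 2 * Nat.log 2 ⌈N * L ^ 4⌉₊ + 1) ^
        (1 / (63 * l)) / (1 / (63 * l)) ≤ 252 * Real.exp 1 * l := by
      rw [div_le_iff₀ hτ]
      calc _ ≤ 4 * Real.exp 1 := by linarith
        _ = 252 * Real.exp 1 * l * (1 / (63 * l)) := by field_simp; ring
    calc _ ≤ Real.exp (Real.log 2 * (1 / (63 * l)) - (1 / (63 * l)) * (50000 * l ^ 2)) *
          Real.exp (252 * Real.exp 1 * l) := by
          gcongr
      _ = Real.exp ((Real.log 2 * (1 / (63 * l)) - (1 / (63 * l)) * (50000 * l ^ 2)) +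
          252 * Real.exp 1 * l) := by rw [Real.exp_add]
      _ ≤ _ := by
        apply Real.exp_le_exp.2
        have e1 : (1 / (63 * l)) * (50000 * l ^ 2) = 50000 / 63 * l := by field_simp
        have e2 : Real.log 2 * (1 / (63 * l)) ≤ 1 := by
          rw [mul_one_div, div_le_one (by positivity)]
          have := Real.log_two_lt_d9
          linarith
        rw [e1]
        nlinarith

/-- the harmonic sum up to the height -/
lemma harm_Kt : ∀ᶠ N : ℕ in atTop, 1 ≤ harm (Kt N) ∧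
    Real.log (harm (Kt N)) ≤ 3 * Real.log (Real.log (Real.log N)) := by
  filter_upwards [num1, tendsto_ll.eventually (eventually_ge_atTop 50001)] with N h1 h2
  obtain ⟨hK1, -⟩ := h1
  set l := Real.log (Real.log N) with hl
  have hl0 : 0 < l := by linarith
  have hh1 : 1 ≤ harm (Kt N) := by
    unfold harm
    have : (1 : ℝ) / ((1 : ℕ) : ℝ) ≤ ∑ n ∈ Icc 1 (Kt N), (1 : ℝ) / n :=
      Finset.single_le_sum (f := fun n : ℕ => (1 : ℝ) / n) (fun n _ => by positivity)
        (Finset.mem_Icc.2 ⟨le_refl 1, hK1⟩)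
    simpa using this
  refine ⟨hh1, ?_⟩
  have hK4 : (Kt N : ℝ) ≤ Real.exp (50000 * l ^ 2) := Nat.floor_le (by positivity)
  have hK0 : (0 : ℝ) < Kt N := by exact_mod_cast hK1
  have h3 : Real.log (Kt N) ≤ 50000 * l ^ 2 := by
    rw [Real.log_le_iff_le_exp hK0]; exact hK4
  have h4 := NUM2_harm_le (Kt N)
  have h5 : harm (Kt N) ≤ l ^ 3 := by
    have : (1 : ℝ) + 50000 * l ^ 2 ≤ l ^ 3 := by nlinarith [pow_pos hl0 2]
    linarith
  calc Real.log (harm (Kt N)) ≤ Real.log (l ^ 3) := Real.log_le_log (by linarith) h5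
    _ = 3 * Real.log l := by rw [Real.log_pow]; push_cast; ring

lemma aux_sq (L : ℝ) (h : 1 ≤ L) : (1 + L) ^ 2 ≤ 4 * L ^ 2 := by nlinarith

lemma aux_S (C' lam S : ℝ) (h0 : 0 ≤ C') (h1 : 1 ≤ lam) (h : (21 + C') * lam ≤ S) :
    21 * lam + C' ≤ S := by nlinarith

lemma aux_kk (k lam S : ℝ) (hk : 0 ≤ k) (h : k * lam ≤ S + lam) :
    3 * k ^ 2 * lam ≤ 3 * k * S + 3 * k * lam := by nlinarith

lemma aux_final (k l lam S a b c C' L h g : ℝ) (hkS : 4 * l ≤ 4 * (k * S))
    (hkk : 3 * k ^ 2 * lam ≤ 3 * k * S + 3 * k * lam) (hSk : 16 * S ≤ 16 * (k * lam))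
    (hk3 : k ^ 2 * h ≤ 3 * k ^ 2 * lam) (hCk : (k - 2) * a + b + k * c ≤ k * C')
    (hkSb : k * (21 * lam + C') ≤ k * S)
    (hlg : k * g ≤ (k - 2) * (a + 3 * L - (l + 8 * S)) + (b + 2 * l + 6 * L) + k ^ 2 * h) :
    k * (c + g - 3 * L) ≤ k * (-(l + 2 * lam)) := by
  nlinarith

/-- the final numerical estimate -/
lemma num2 (c₀ c₁ B : ℝ) (hc₀ : 0 < c₀) (hc₁ : 0 < c₁) (hB : 0 < B) : ∀ᶠ N : ℕ in atTop,
    ∃ k : ℕ, 2 ≤ k ∧ ∀ g : ℝ, 0 ≤ g → g ^ k ≤ (2 * (c₀ * (N : ℝ) ^ 3 / thr N)) ^ (k - 2) *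
      (c₁ * (1 + Real.log N) ^ 2 * (N : ℝ) ^ 6) * harm (Kt N) ^ (k ^ 2) →
      B * g / (N : ℝ) ^ 3 ≤ 1 / (Real.log N * Real.log (Real.log N) ^ 2) := by
  set C' : ℝ := |Real.log (2 * c₀)| + |Real.log (4 * c₁)| + |Real.log B| with hC'
  have hC'0 : 0 ≤ C' := by positivity
  have hlogx : ∀ᶠ x : ℝ in atTop, (21 + C') ^ 2 * Real.log x ≤ x := by
    have h1 := Real.isLittleO_log_id_atTop.bound (show (0 : ℝ) < 1 / (21 + C') ^ 2 by positivity)
    filter_upwards [h1, eventually_ge_atTop 1] with x hx hx1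
    have h2 : 0 ≤ Real.log x := Real.log_nonneg hx1
    rw [Real.norm_of_nonneg h2, id, Real.norm_of_nonneg (by linarith)] at hx
    have h3 : (0 : ℝ) < (21 + C') ^ 2 := by positivity
    calc (21 + C') ^ 2 * Real.log x ≤ (21 + C') ^ 2 * (1 / (21 + C') ^ 2 * x) :=
          mul_le_mul_of_nonneg_left hx h3.le
      _ = x := by field_simp
  filter_upwards [harm_Kt, tendsto_l.eventually (eventually_ge_atTop 1),
    tendsto_ll.eventually hlogx, tendsto_ll.eventually (eventually_ge_atTop 1),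
    tendsto_lll.eventually (eventually_ge_atTop 1), eventually_ge_atTop 3] with
    N hh hL1 hlC hl1 hlam1 hN3
  have hNpos : (0:ℝ) < N := by exact_mod_cast (by omega : 0 < N)
  unfold thr
  set L := Real.log N with hL
  set l := Real.log L with hl
  set lam := Real.log l with hlam
  set h := harm (Kt N) with hh'
  set S := Real.sqrt (l * lam) with hS
  have hL0 : 0 < L := by linarith
  have hl0 : 0 < l := by linarith
  have hlam0 : 0 < lam := by linarith
  have hS0 : 0 < S := Real.sqrt_pos.2 (by positivity)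
  have hSS : S * S = l * lam := Real.mul_self_sqrt (by positivity)
  set q := Real.sqrt (l / lam) with hq
  have hq0 : 0 < q := Real.sqrt_pos.2 (by positivity)
  have hqq : q * q = l / lam := Real.mul_self_sqrt (by positivity)
  have hqlam : q * lam = S := by
    have h1 : (q * lam) ^ 2 = S ^ 2 := by
      have : (q * lam) ^ 2 = (q * q) * lam ^ 2 := by ring
      rw [this, hqq, pow_two S, hSS]
      field_simp
    exact (sq_eq_sq₀ (by positivity) hS0.le).1 h1
  have hqS : q * S = l := by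
    rw [← hqlam]
    have : q * (q * lam) = (q * q) * lam := by ring
    rw [this, hqq]
    field_simp
  -- size of `S`
  have hSbig : (21 + C') * lam ≤ S := by
    rw [hS]
    apply Real.le_sqrt_of_sq_le
    calc ((21 + C') * lam) ^ 2 = ((21 + C') ^ 2 * lam) * lam := by ring
      _ ≤ l * lam := mul_le_mul_of_nonneg_right hlC hlam0.le
  have hSbig' : 21 * lam + C' ≤ S := aux_S C' lam S hC'0 hlam1 hSbig
  have hq21 : 21 ≤ q := by
    have : 21 * lam ≤ q * lam := by rw [hqlam]; linarith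
    exact le_of_mul_le_mul_right this hlam0
  refine ⟨⌈q⌉₊, ?_, ?_⟩
  · have : (21 : ℝ) ≤ (⌈q⌉₊ : ℝ) := hq21.trans (Nat.le_ceil _)
    have : 21 ≤ ⌈q⌉₊ := by exact_mod_cast this
    omega
  obtain ⟨k, hk⟩ : ∃ k : ℕ, k = ⌈q⌉₊ := ⟨_, rfl⟩
  rw [← hk]
  have hkq : q ≤ (k : ℝ) := by rw [hk]; exact Nat.le_ceil _
  have hkq1 : (k : ℝ) ≤ q + 1 := by rw [hk]; exact (Nat.ceil_lt_add_one hq0.le).le
  have hk21 : (21 : ℝ) ≤ k := hq21.trans hkq
  have hk2 : 2 ≤ k := by
    have : 21 ≤ k := by exact_mod_cast hk21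
    omega
  intro g hg hgk
  rcases eq_or_lt_of_le hg with hg0 | hg0
  · rw [← hg0]
    simp only [mul_zero, zero_div]
    positivity
  have hW : 0 < Real.exp (8 * S) := Real.exp_pos _
  -- take logarithms
  have hlg := Real.log_le_log (by positivity) hgk
  have hh1 : 1 ≤ h := hh.1
  have hh0 : 0 < h := by linarith
  rw [Real.log_pow, Real.log_mul (by positivity) (by positivity),
    Real.log_mul (by positivity) (by positivity), Real.log_pow, Real.log_pow] at hlg
  clear hgk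
  have e1 : Real.log (2 * (c₀ * (N : ℝ) ^ 3 / (L * Real.exp (8 * S)))) =
      Real.log (2 * c₀) + 3 * L - (l + 8 * S) := by
    have : 2 * (c₀ * (N : ℝ) ^ 3 / (L * Real.exp (8 * S))) =
        (2 * c₀) * (N : ℝ) ^ 3 / (L * Real.exp (8 * S)) := by ring
    rw [this, Real.log_div (by positivity) (by positivity),
      Real.log_mul (x := 2 * c₀) (by positivity) (by positivity), Real.log_pow,
      Real.log_mul (x := L) (by positivity) (by positivity), Real.log_exp]
    push_cast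
    ring
  have e2 : Real.log (c₁ * (1 + L) ^ 2 * (N : ℝ) ^ 6) ≤ Real.log (4 * c₁) + 2 * l + 6 * L := by
    have h1 : c₁ * (1 + L) ^ 2 * (N : ℝ) ^ 6 ≤ (4 * c₁) * L ^ 2 * (N : ℝ) ^ 6 := by
      have h0 := aux_sq L hL1
      have h2 : c₁ * (1 + L) ^ 2 ≤ (4 * c₁) * L ^ 2 := by
        calc c₁ * (1 + L) ^ 2 ≤ c₁ * (4 * L ^ 2) := mul_le_mul_of_nonneg_left h0 hc₁.le
          _ = _ := by ring
      exact mul_le_mul_of_nonneg_right h2 (by positivity)
    refine (Real.log_le_log (by positivity) h1).trans (le_of_eq ?_)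
    rw [Real.log_mul (x := 4 * c₁ * L ^ 2) (by positivity) (by positivity),
      Real.log_mul (x := 4 * c₁) (by positivity) (by positivity),
      Real.log_pow, Real.log_pow]
    push_cast
    ring
  have e3 : Real.log h ≤ 3 * lam := hh.2
  rw [e1] at hlg
  have hk2c : ((k - 2 : ℕ) : ℝ) = (k : ℝ) - 2 := by
    rw [Nat.cast_sub hk2]; norm_num
  rw [hk2c] at hlg
  push_cast at hlg
  have a1 : Real.log (2 * c₀) ≤ C' := by
    have := le_abs_self (Real.log (2 * c₀))
    have := abs_nonneg (Real.log (4 * c₁))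
    have := abs_nonneg (Real.log B)
    rw [hC']; linarith
  -- main inequality
  have key : (k : ℝ) * (Real.log B + Real.log g - 3 * L) ≤ k * (-(l + 2 * lam)) := by
    have hkS : 4 * l ≤ 4 * (k * S) := by
      have : q * S ≤ k * S := mul_le_mul_of_nonneg_right hkq hS0.le
      rw [hqS] at this
      linarith
    have hkk : 3 * (k : ℝ) ^ 2 * lam ≤ 3 * k * S + 3 * k * lam := by
      have : (k : ℝ) * lam ≤ S + lam := by
        calc (k : ℝ) * lam ≤ (q + 1) * lam := mul_le_mul_of_nonneg_right hkq1 hlam0.le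
          _ = S + lam := by rw [add_mul, hqlam, one_mul]
      exact aux_kk k lam S (by linarith) this
    have hSk : 16 * S ≤ 16 * (k * lam) := by
      have : q * lam ≤ k * lam := mul_le_mul_of_nonneg_right hkq hlam0.le
      rw [hqlam] at this
      linarith
    have hk3 : (k : ℝ) ^ 2 * Real.log h ≤ 3 * (k : ℝ) ^ 2 * lam := by
      have := mul_le_mul_of_nonneg_left e3 (by positivity : (0 : ℝ) ≤ (k : ℝ) ^ 2)
      linarith
    have hCk : ((k : ℝ) - 2) * Real.log (2 * c₀) + Real.log (4 * c₁) + k * Real.log B ≤ k * C' := by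
      have b1 : ((k : ℝ) - 2) * Real.log (2 * c₀) ≤ k * |Real.log (2 * c₀)| := by
        calc ((k : ℝ) - 2) * Real.log (2 * c₀) ≤ ((k : ℝ) - 2) * |Real.log (2 * c₀)| :=
              mul_le_mul_of_nonneg_left (le_abs_self _) (by linarith)
          _ ≤ k * |Real.log (2 * c₀)| := mul_le_mul_of_nonneg_right (by linarith) (abs_nonneg _)
      have b2 : Real.log (4 * c₁) ≤ k * |Real.log (4 * c₁)| := by
        have b0 := le_abs_self (Real.log (4 * c₁))
        have b00 : 1 * |Real.log (4 * c₁)| ≤ k * |Real.log (4 * c₁)| :=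
          mul_le_mul_of_nonneg_right (by linarith) (abs_nonneg _)
        linarith
      have b3 : k * Real.log B ≤ k * |Real.log B| :=
        mul_le_mul_of_nonneg_left (le_abs_self _) (by linarith)
      rw [hC']
      linarith
    have hkSb : k * (21 * lam + C') ≤ k * S := mul_le_mul_of_nonneg_left hSbig' (by linarith)
    exact aux_final k l lam S _ _ _ C' L _ _ hkS hkk hSk hk3 hCk hkSb (by linarith)
  have key2 : Real.log B + Real.log g - 3 * L ≤ -(l + 2 * lam) :=
    le_of_mul_le_mul_left key (by linarith)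
  rw [div_le_div_iff₀ (by positivity) (by positivity), one_mul, ← Real.log_le_log_iff
    (by positivity) (by positivity), Real.log_mul (by positivity) (by positivity),
    Real.log_mul (by positivity) (by positivity), Real.log_mul (by positivity) (by positivity),
    Real.log_pow, Real.log_pow]
  push_cast
  linarith

end Pool.Agent.H673R3
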